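import Mathlib
import Pool.Agent.H24.H10Sys

set_option autoImplicit false

namespace Pool.Agent.Results.MP_301441_lc.Undecidable

/-- the defining relations `ab = ba` for `(a,b) ∈ I` -/
def rel {A : Type} (I : A → A → Prop) (x y : FreeMonoid A) : Prop :=
  ∃ a b, I a b ∧ x = FreeMonoid.of a * FreeMonoid.of b ∧ y = FreeMonoid.of b * FreeMonoid.of a

/-- the trace monoid `M(A,I)` -/
abbrev Trace {A : Type} (I : A → A → Prop) : Type := PresentedMonoid (rel I)

/-- the abelianisation map `M(A,I) → ℕ^A` (vector of letter counts) -/
def abel {A : Type} [DecidableEq A] (I : A → A → Prop) : Trace I →* Multiplicative (A → ℕ) :=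
  PresentedMonoid.lift (fun a => Multiplicative.ofAdd (Pi.single a 1)) (by
    rintro _ _ ⟨a, b, -, rfl, rfl⟩
    simp [mul_comm])

/-- value in `M(A,I)` of a word in variables and letters -/
def val {A : Type} (I : A → A → Prop) (m : ℕ → Trace I) (u : List (ℕ ⊕ A)) : Trace I :=
  (u.map (Sum.elim m (PresentedMonoid.of (rel I)))).prod

/-- value in `ℕ^A` of a formal sum of variables and basis vectors -/
def sum {A : Type} [DecidableEq A] (v : ℕ → A → ℕ) (u : List (ℕ ⊕ A)) : A → ℕ :=
  (u.map (Sum.elim v fun a => Pi.single a 1)).sum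

theorem prop_list (n : ℕ) : ∀ u w : List Bool, u.length + w.length < n → u ++ w = w ++ u →
    u.count true * w.count false = w.count true * u.count false := by
  induction n with
  | zero => intro u w h; omega
  | succ n ih =>
    intro u w hl h
    rcases eq_or_ne u [] with rfl | hu
    · simp
    rcases eq_or_ne w [] with rfl | hw
    · simp
    have lu := List.length_pos_iff.2 hu
    have lw := List.length_pos_iff.2 hw
    rcases List.append_eq_append_iff.1 h with ⟨c, h1, h2⟩ | ⟨c, h1, h2⟩
    · have := ih u c (by rw [h1] at hl; simp at hl; omega) (h1.symm.trans h2)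
      rw [h1]; simp only [List.count_append]; nlinarith
    · have := ih w c (by rw [h1] at hl; simp at hl; omega) (h1.symm.trans h2)
      rw [h1]; simp only [List.count_append]; nlinarith

section
variable {A : Type} [DecidableEq A] {I : A → A → Prop}

theorem sum_val (m : ℕ → Trace I) (u : List (ℕ ⊕ A)) :
    sum (fun i => (abel I (m i)).toAdd) u = (abel I (val I m u)).toAdd := by
  induction u with
  | nil => simp [sum, val]
  | cons x u ih =>
    simp only [sum, val, List.map_cons, List.sum_cons, List.prod_cons, map_mul, toAdd_mul] at ih ⊢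
    rw [ih]
    cases x <;> rfl

theorem prop (hi : ∀ a, ¬ I a a) (hs : ∀ a b, I a b → I b a) {a b : A} (hab : a ≠ b)
    (hn : ¬ I a b) {x y : Trace I} (h : x * y = y * x) :
    (abel I x).toAdd a * (abel I y).toAdd b = (abel I y).toAdd a * (abel I x).toAdd b := by
  let φ : Trace I →* FreeMonoid Bool := PresentedMonoid.lift
    (fun c => if c = a then FreeMonoid.of true else if c = b then FreeMonoid.of false else 1) (by
      rintro _ _ ⟨c, d, hI, rfl, rfl⟩
      simp only [map_mul, FreeMonoid.lift_eval_of]
      split_ifs <;> first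
        | simp; done
        | (exfalso; subst_vars; first | exact hn hI | exact hn (hs _ _ hI)))
  have h1 : ∀ x, (abel I x).toAdd a = (φ x).toList.count true ∧
      (abel I x).toAdd b = (φ x).toList.count false := fun x => by
    obtain ⟨x, rfl⟩ := PresentedMonoid.surjective_mk x
    induction x using FreeMonoid.inductionOn' with
    | one => simp
    | of_mul c x ih =>
      simp only [map_mul, toAdd_mul, Pi.add_apply, FreeMonoid.toList_mul, List.count_append, ih]
      have e1 : abel I (PresentedMonoid.mk _ (FreeMonoid.of c)) =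
        Multiplicative.ofAdd (Pi.single c 1) := rfl
      have e2 : φ (PresentedMonoid.mk _ (FreeMonoid.of c)) = if c = a then FreeMonoid.of true
        else if c = b then FreeMonoid.of false else 1 := PresentedMonoid.lift_of _ _
      rw [e1, e2]
      split_ifs with h1 h2
      · subst h1; simp [hab.symm]
      · subst h2; simp [hab]
      · simp [Ne.symm h1, Ne.symm h2]
  rw [(h1 x).1, (h1 x).2, (h1 y).1, (h1 y).2]
  refine prop_list _ _ _ (Nat.lt_succ_self _) ?_
  rw [← FreeMonoid.toList_mul, ← FreeMonoid.toList_mul, ← map_mul, ← map_mul, h]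

end

/-- If some two distinct letters do not commute, the Diophantine problem with abelianisation
constraints in the trace monoid `M(A,I)` is undecidable. -/
theorem result (A : Type) [Fintype A] [DecidableEq A] [Primcodable A] (I : A → A → Prop)
    (hi : ∀ a, ¬ I a a) (hs : ∀ a b, I a b → I b a) (hne : ∃ a b, a ≠ b ∧ ¬ I a b) :
    ¬ ComputablePred fun S : List (List (ℕ ⊕ A) × List (ℕ ⊕ A)) ×
        List (List (ℕ ⊕ A) × List (ℕ ⊕ A)) =>
      ∃ m : ℕ → Trace I, (∀ e ∈ S.1, val I m e.1 = val I m e.2) ∧
        ∀ e ∈ S.2, sum (fun i => (abel I (m i)).toAdd) e.1 =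
          sum (fun i => (abel I (m i)).toAdd) e.2 := by
  obtain ⟨a, b, hab, hn⟩ := hne
  have ea : ∀ c, abel I (PresentedMonoid.of _ c) = Multiplicative.ofAdd (Pi.single c 1) :=
    fun _ => rfl
  obtain ⟨S, p, o, K, hK, h1, h2⟩ := Pool.Agent.H24.H10.generic' (M := Trace I)
    (Atom := Bool × List (ℕ ⊕ A) × List (ℕ ⊕ A))
    (fun e m => if e.1 then val I m e.2.1 = val I m e.2.2
      else abel I (val I m e.2.1) = abel I (val I m e.2.2))
    (fun f e => (e.1, e.2.1.map (Sum.map f id), e.2.2.map (Sum.map f id)))
    (fun f e m => by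
      have : ∀ u : List (ℕ ⊕ A), val I m (u.map (Sum.map f id)) = val I (fun i => m (f i)) u :=
        fun u => by
          rw [val, val, List.map_map]
          congr 2
          funext x
          cases x <;> rfl
      simp only [this])
    (fun m n => (abel I m).toAdd a = n) (fun m x y hx hy => hx.symm.trans hy)
    (fun n => PresentedMonoid.of _ a ^ n)
    (fun c => if c then [(true, [.inl 0, .inl 1], [.inl 2])] else
      [(true, [.inl 0, .inr a], [.inr a, .inl 0]), (true, [.inl 1, .inr a], [.inr a, .inl 1]),
       (true, [.inl 2, .inr a], [.inr a, .inl 2]), (true, [.inl 4, .inr b], [.inr b, .inl 4]),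
       (true, [.inl 3, .inl 0, .inr b], [.inl 0, .inr b, .inl 3]),
       (true, [.inl 5, .inr a, .inr b], [.inr a, .inr b, .inl 5]),
       (false, [.inl 3], [.inl 2, .inl 4]), (false, [.inl 5], [.inl 1, .inl 4])])
    (fun c m h => by
      refine ⟨_, _, _, rfl, rfl, rfl, ?_⟩
      cases c
      · simp [val] at h
        obtain ⟨h0, h1, h2, h3, h4, h5, h6, h7⟩ := h
        have a0 := prop hi hs hab hn h0
        have a1 := prop hi hs hab hn h1
        have a2 := prop hi hs hab hn h2
        have a3 := prop hi hs hab hn h3
        have a4 := prop hi hs hab hn (h4.trans (mul_assoc _ _ _).symm)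
        have a5 := prop hi hs hab hn (h5.trans (mul_assoc _ _ _).symm)
        simp [ea, hab, hab.symm, h6, h7] at a0 a1 a2 a3 a4 a5
        simp only [← a0, ← a1, ← a2, a3, zero_add, add_zero, mul_one] at a4 a5
        simp [a4, a5]
      · simp [val] at h
        simp [← h])
    (fun c x y => by
      cases c
      · refine ⟨fun i => match i with
          | 0 => PresentedMonoid.of _ a ^ x | 1 => PresentedMonoid.of _ a ^ y
          | 2 => PresentedMonoid.of _ a ^ (x * y)
          | 3 => (PresentedMonoid.of _ a ^ x * PresentedMonoid.of _ b) ^ y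
          | 4 => PresentedMonoid.of _ b ^ y
          | _ => (PresentedMonoid.of _ a * PresentedMonoid.of _ b) ^ y, rfl, rfl, rfl, ?_⟩
        simp [val, ← pow_succ, ← pow_succ', ← mul_assoc, mul_pow, pow_mul]
        exact ⟨by rw [← pow_mul, ← pow_succ, ← pow_succ'], by rw [mul_assoc, ← pow_succ],
          by rw [mul_assoc, ← pow_succ]⟩
      · exact ⟨fun i => PresentedMonoid.of _ a ^ (if i = 0 then x else if i = 1 then y else x + y),
          rfl, rfl, rfl, by simp [val, pow_add]⟩)
  have hv : ∀ m n, val I m (List.replicate n (.inr a)) = PresentedMonoid.of _ a ^ n :=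
    fun m n => by simp [val]
  refine Pool.Agent.H24.H10.not_comp_of_red hK
    (fun n => (([.inl p], List.replicate n (.inr a)) :: ([.inl o], [.inr a]) ::
      (S.filter fun e => e.1).map Prod.snd, (S.filter fun e => !e.1).map Prod.snd))
    ((Primrec.list_cons.comp ((Primrec.const _).pair (Pool.Agent.H24.H10.prim_replicate _))
      (Primrec.const _)).pair (Primrec.const _)).to_comp fun n => ⟨fun h => ?_, ?_⟩
  · obtain ⟨m, e1, e2, e3⟩ := h2 n h
    refine ⟨m, ?_, ?_⟩
    · simp only [List.forall_mem_cons, hv, List.forall_mem_map, List.mem_filter]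
      refine ⟨by simp [val, e1], by simp [val, e2], fun e he => ?_⟩
      simpa [he.2] using e3 e he.1
    · simp only [List.forall_mem_map, List.mem_filter, sum_val]
      intro e he
      have := e3 e he.1
      rw [if_neg (by simpa using he.2)] at this
      rw [this]
  · rintro ⟨m, e1, e2⟩
    simp only [List.forall_mem_cons, hv, List.forall_mem_map, List.mem_filter, sum_val] at e1 e2
    obtain ⟨b1, b2, b3⟩ := e1
    simp only [val, List.map_cons, List.map_nil, List.prod_cons, List.prod_nil, mul_one,
      Sum.elim_inl, Sum.elim_inr] at b1 b2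
    refine h1 n m (by simp [b1, ea]) (by simp [b2, ea]) fun e he => ?_
    split_ifs with h
    · exact b3 e ⟨he, h⟩
    · exact Multiplicative.toAdd.injective (e2 e ⟨he, by simpa using h⟩)

end Pool.Agent.Results.MP_301441_lc.Undecidable
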